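import Mathlib
import Pool.Agent.Run7.h353.PS.Extract
import Pool.Agent.Run7.h353.PS.OddCase
import Pool.Agent.Run7.h353.PS.Scale

/-!
Hindman's theorem for two colours and sums of at most two terms, for colourings that are stable
with respect to moduli with bounded powers of two or with bounded odd parts: it follows from
Ramsey's theorem for pairs, with the exact strength.
-/

namespace Pool.Agent.Results.MP_bcf494_lc.StableInstances

open Pool.Agent.Run7.h353.PS Pool.Agent.Helper446 Pool.Agent.Helper446.Oracle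

/-- The characteristic function of a set of natural numbers, as a (total) partial function. -/
noncomputable def char (B : Set ℕ) : ℕ →. ℕ := by
  classical exact fun n => Part.some (if n ∈ B then 1 else 0)

/-- The set `B` is Turing reducible to the set `A`. -/
def LeT (B A : Set ℕ) : Prop := TuringReducible (char B) (char A)

/-- The join of two sets. -/
def join (A B : Set ℕ) : Set ℕ := {n | (n % 2 = 0 ∧ n / 2 ∈ A) ∨ (n % 2 = 1 ∧ n / 2 ∈ B)}

/-- A Turing ideal, that is, the second-order part of an `ω`-model of `RCA₀`. -/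
structure Ideal (I : Set (Set ℕ)) : Prop where
  nonempty : I.Nonempty
  down : ∀ A ∈ I, ∀ B, LeT B A → B ∈ I
  join_mem : ∀ A ∈ I, ∀ B ∈ I, join A B ∈ I

/-- The set coding a colouring of numbers with two colours. -/
def code (c : ℕ → Fin 2) : Set ℕ := {n | c n = 1}

/-- The set coding a colouring of ordered pairs with two colours. -/
def code₂ (g : ℕ → ℕ → Fin 2) : Set ℕ := {n | g n.unpair.1 n.unpair.2 = 1}

/-- `X` is infinite and all sums of one or two distinct elements of `X` have the same colour. -/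
def HT (c : ℕ → Fin 2) (X : Set ℕ) : Prop :=
  X.Infinite ∧ ∃ i, ∀ F : Finset ℕ, (F : Set ℕ) ⊆ X → F.Nonempty → F.card ≤ 2 →
    c (∑ n ∈ F, n) = i

/-- `X` is infinite and all pairs of distinct elements of `X` have the same colour. -/
def Hom (g : ℕ → ℕ → Fin 2) (X : Set ℕ) : Prop :=
  X.Infinite ∧ ∃ i, ∀ x ∈ X, ∀ y ∈ X, x < y → g x y = i

/-- The colouring is stable for a set `S` of moduli: for every `n ≥ 1` there is `m` in `S` such
that `n + y` has the same colour for all positive multiples `y` of `m`. -/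
def Stable (S : Set ℕ) (c : ℕ → Fin 2) : Prop :=
  ∀ n, 1 ≤ n → ∃ m ∈ S, ∀ y z, 0 < y → 0 < z → m ∣ y → m ∣ z → c (n + y) = c (n + z)

/-- The powers of `b`. -/
def Powers (b : ℕ) : Set ℕ := {m | ∃ N, m = b ^ N}

/-- The powers of two dividing the numbers in `S` are bounded: none is divisible by `2 ^ a`. -/
def TwoBounded (a : ℕ) (S : Set ℕ) : Prop := ∀ m ∈ S, ¬ 2 ^ a ∣ m

/-- The odd parts of the numbers in `S` are bounded: they divide one odd number `L`. -/
def OddBounded (S : Set ℕ) : Prop := ∃ L, Odd L ∧ ∀ m ∈ S, ∃ i, m ∣ 2 ^ i * L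

/-- Ramsey's theorem for pairs and two colours in the ideal. -/
def RT₂ (I : Set (Set ℕ)) : Prop :=
  ∀ g : ℕ → ℕ → Fin 2, code₂ g ∈ I → ∃ X ∈ I, Hom g X

/-- Stable Ramsey's theorem for pairs and two colours in the ideal. -/
def SRT₂ (I : Set (Set ℕ)) : Prop :=
  ∀ g : ℕ → ℕ → Fin 2, code₂ g ∈ I → (∀ x, ∃ i s, ∀ y, s ≤ y → g x y = i) → ∃ X ∈ I, Hom g X

/-- Hindman's theorem for two colours and sums of at most two terms in the ideal, restricted to
colourings that are stable for the moduli in `S`. -/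
def StableHT (I : Set (Set ℕ)) (S : Set ℕ) : Prop :=
  ∀ c : ℕ → Fin 2, code c ∈ I → Stable S c → ∃ X ∈ I, HT c X

/-- The product of the odd numbers up to `2 * k + 1`. -/
def oddProduct (k : ℕ) : ℕ := ∏ i ∈ Finset.range (k + 1), (2 * i + 1)

theorem leT_iff {A B : Set ℕ} : LeT B A ↔ REIn A (· ∈ B) ∧ REIn A (· ∉ B) :=
  turingReducible_iff

theorem re_left (A B : Set ℕ) : REIn (join A B) (· ∈ A) ∧ REIn (join A B) (· ∉ A) := by
  have h : ∀ n, 2 * n ∈ join A B ↔ n ∈ A := by
    intro n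
    unfold join
    rw [Set.mem_ofPred_eq, Nat.mul_mod_right, Nat.mul_div_cancel_left _ (by norm_num)]
    constructor
    · rintro (⟨_, h⟩ | ⟨h, _⟩)
      · exact h
      · omega
    · exact fun h => Or.inl ⟨rfl, h⟩
  exact ⟨(REIn.mem (A := join A B) (f := fun n : ℕ => 2 * n) (by fun_prop)).of_eq h,
    (REIn.not_mem (A := join A B) (f := fun n : ℕ => 2 * n) (by fun_prop)).of_eq
      fun n => not_congr (h n)⟩

theorem re_right (A B : Set ℕ) : REIn (join A B) (· ∈ B) ∧ REIn (join A B) (· ∉ B) := by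
  have h : ∀ n, 2 * n + 1 ∈ join A B ↔ n ∈ B := by
    intro n
    unfold join
    rw [Set.mem_ofPred_eq]
    have e1 : (2 * n + 1) % 2 = 1 := by omega
    have e2 : (2 * n + 1) / 2 = n := by omega
    rw [e1, e2]
    constructor
    · rintro (⟨h, _⟩ | ⟨_, h⟩)
      · omega
      · exact h
    · exact fun h => Or.inr ⟨rfl, h⟩
  exact ⟨(REIn.mem (A := join A B) (f := fun n : ℕ => 2 * n + 1) (by fun_prop)).of_eq h,
    (REIn.not_mem (A := join A B) (f := fun n : ℕ => 2 * n + 1) (by fun_prop)).of_eq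
      fun n => not_congr (h n)⟩

theorem fin2_zero (a : Fin 2) : a = 0 ↔ ¬ a = 1 := by revert a; decide

theorem re_code {A : Set ℕ} {c : ℕ → Fin 2} (h1 : REIn A (· ∈ code c))
    (h2 : REIn A (· ∉ code c)) (i : Fin 2) : REIn A fun x => c x = i := by
  have h01 : ∀ a : Fin 2, a = 0 ∨ a = 1 := by decide
  rcases h01 i with rfl | rfl
  · exact h2.of_eq fun x => (fin2_zero _).symm
  · exact h1

theorem re_code₂ {A : Set ℕ} {g : ℕ → ℕ → Fin 2} (h1 : REIn A (· ∈ code₂ g))
    (h2 : REIn A (· ∉ code₂ g)) (i : Fin 2) : REIn A fun x : ℕ × ℕ => g x.1 x.2 = i := by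
  have h01 : ∀ a : Fin 2, a = 0 ∨ a = 1 := by decide
  have e : ∀ x : ℕ × ℕ, Nat.pair x.1 x.2 ∈ code₂ g ↔ g x.1 x.2 = 1 := by
    intro x
    unfold code₂
    rw [Set.mem_ofPred_eq, Nat.unpair_pair]
  rcases h01 i with rfl | rfl
  · exact (h2.comp (f := fun x : ℕ × ℕ => Nat.pair x.1 x.2) (by fun_prop)).of_eq fun x =>
      (not_congr (e x)).trans (fin2_zero _).symm
  · exact (h1.comp (f := fun x : ℕ × ℕ => Nat.pair x.1 x.2) (by fun_prop)).of_eq e

theorem ht_of_sol {c : ℕ → Fin 2} {H : Set ℕ} (h : Sol c H) : HT c H := by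
  obtain ⟨h1, _, i, h2, h3⟩ := h
  refine ⟨h1, i, fun F hF hne hcard => ?_⟩
  have hpos := Finset.card_pos.2 hne
  rcases Nat.lt_or_ge F.card 2 with h4 | h4
  · obtain ⟨x, rfl⟩ := Finset.card_eq_one.1 (show F.card = 1 by omega)
    rw [Finset.sum_singleton]
    exact h2 x (hF (by simp))
  · obtain ⟨x, y, hxy, rfl⟩ := Finset.card_eq_two.1 (show F.card = 2 by omega)
    rw [Finset.sum_pair hxy]
    exact h3 x (hF (by simp)) y (hF (by simp)) hxy

theorem sol_of_ht {c : ℕ → Fin 2} {X : Set ℕ} (h : HT c X) : Sol c (X \ {0}) := by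
  obtain ⟨h1, i, h2⟩ := h
  refine ⟨h1.sdiff (Set.finite_singleton 0), fun h => h.2 rfl, i, ?_, ?_⟩
  · intro x hx
    have := h2 {x} (by simpa using hx.1) (by simp) (by simp)
    rwa [Finset.sum_singleton] at this
  · intro x hx y hy hxy
    have := h2 {x, y} (by
      intro w hw
      simp only [Finset.coe_insert, Finset.coe_singleton, Set.mem_insert_iff,
        Set.mem_singleton_iff] at hw
      rcases hw with rfl | rfl
      · exact hx.1
      · exact hy.1) (by simp) (by rw [Finset.card_pair hxy])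
    rwa [Finset.sum_pair hxy] at this

theorem stab_of_stable {b : ℕ} {c : ℕ → Fin 2} (h : Stable (Powers b) c) : Stab b c := by
  intro n hn
  obtain ⟨m, ⟨N, rfl⟩, h1⟩ := h n hn
  exact ⟨N, h1⟩

theorem stable_of_stab {b : ℕ} {c : ℕ → Fin 2} (h : Stab b c) : Stable (Powers b) c := by
  intro n hn
  obtain ⟨N, h1⟩ := h n hn
  exact ⟨b ^ N, ⟨N, rfl⟩, h1⟩

theorem odds_of_stable {a : ℕ} {S : Set ℕ} (hS : TwoBounded a S) {c : ℕ → Fin 2}
    (h : Stable S c) : StabM {m | Odd m} (fun n => c (2 ^ a * n)) := by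
  intro n hn
  obtain ⟨m, hm, h1⟩ := h (2 ^ a * n) (Nat.mul_pos (by positivity) hn)
  have hm0 : m ≠ 0 := by
    rintro rfl
    exact hS 0 hm (dvd_zero _)
  obtain ⟨i, m', hm', rfl⟩ := Nat.exists_eq_two_pow_mul_odd hm0
  have hi : i ≤ a := by
    by_contra hcon
    exact hS _ hm (Dvd.dvd.mul_right (pow_dvd_pow 2 (by omega)) _)
  refine ⟨m', hm', fun y z hy hz hyd hzd => ?_⟩
  simp only [mul_add]
  exact h1 _ _ (Nat.mul_pos (by positivity) hy) (Nat.mul_pos (by positivity) hz)
    (mul_dvd_mul (pow_dvd_pow 2 hi) hyd) (mul_dvd_mul (pow_dvd_pow 2 hi) hzd)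

theorem stab_of_oddBounded {L : ℕ} (hL : Odd L) {S : Set ℕ} (hS : ∀ m ∈ S, ∃ i, m ∣ 2 ^ i * L)
    {c : ℕ → Fin 2} (h : Stable S c) : Stab 2 (fun n => c (L * n)) := by
  intro n hn
  obtain ⟨m, hm, h1⟩ := h (L * n) (Nat.mul_pos hL.pos hn)
  obtain ⟨i, hi⟩ := hS m hm
  refine ⟨i, fun y z hy hz hyd hzd => ?_⟩
  simp only [mul_add]
  refine h1 _ _ (Nat.mul_pos hL.pos hy) (Nat.mul_pos hL.pos hz) (hi.trans ?_) (hi.trans ?_)
  · rw [mul_comm L]
    exact mul_dvd_mul hyd dvd_rfl
  · rw [mul_comm L]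
    exact mul_dvd_mul hzd dvd_rfl

theorem oddProduct_eq (k : ℕ) : oddProduct k = oddProd k := by
  induction k with
  | zero => simp [oddProduct, oddProd]
  | succ k ih =>
    unfold oddProduct at ih ⊢
    rw [Finset.prod_range_succ, ih, oddProd]
    ring

/-- Bounded odd parts. -/
theorem two {S : Set ℕ} (hS : OddBounded S) {c : ℕ → Fin 2} (hs : Stable S c) :
    ∃ X, LeT X (code c) ∧ HT c X := by
  obtain ⟨L, hL, hS⟩ := hS
  obtain ⟨H, ⟨h1, h2⟩, h3⟩ := base_two (A := code c) (re_mul L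
    (re_code (REIn.mem Computable.id) (REIn.not_mem Computable.id))) (stab_of_oddBounded hL hS hs)
  exact ⟨scale L H, leT_iff.2 (re_scale L h1 h2), ht_of_sol (scale_sol hL.pos h3)⟩

/-- Bounded powers of two. -/
theorem odd {a : ℕ} {S : Set ℕ} (hS : TwoBounded a S) {c : ℕ → Fin 2} (hs : Stable S c)
    {Y : Set ℕ} (hY : Hom (fun x y => c (2 ^ a * oddProduct x + 2 ^ a * oddProduct y)) Y) :
    ∃ X, LeT X (join (code c) Y) ∧ HT c X := by
  obtain ⟨hinf, e, he⟩ := hY
  simp only [oddProduct_eq, ← mul_add] at he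
  obtain ⟨a1, a2⟩ := re_left (code c) Y
  obtain ⟨b1, b2⟩ := re_right (code c) Y
  obtain ⟨H, ⟨h1, h2⟩, h3⟩ := base_oddM (A := join (code c) Y) (re_mul (2 ^ a) (re_code a1 a2))
    (odds_of_stable hS hs) hinf he b1 b2
  exact ⟨scale (2 ^ a) H, leT_iff.2 (re_scale _ h1 h2),
    ht_of_sol (scale_sol (by positivity) h3)⟩

/-- Odd order of two. -/
theorem odd_ap {b : ℕ} (hb : Odd b) (ho : Odd (orderOf (2 : ZMod b))) {c : ℕ → Fin 2}
    (hs : Stable (Powers b) c) : ∃ a d, 0 < d ∧ HT c {x | ∃ k, x = a + d * k} := by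
  obtain ⟨p, M, _, h⟩ := odd_order (Nat.odd_iff.1 hb) ho (stab_of_stable hs)
  have hb0 : 0 < b := hb.pos
  refine ⟨p + b ^ M, b ^ M, by positivity, ?_⟩
  have e : {x | ∃ k, x = p + b ^ M + b ^ M * k} = {x | ∃ k, x = p + b ^ M * (k + 1)} := by
    ext x
    simp only [Set.mem_ofPred_eq]
    constructor
    · rintro ⟨k, rfl⟩; exact ⟨k, by ring⟩
    · rintro ⟨k, rfl⟩; exact ⟨k, by ring⟩
  rw [e]
  exact ht_of_sol h

variable {I : Set (Set ℕ)}

/-- The pair colouring attached to a stable colouring. -/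
theorem pair_stable {a : ℕ} {S : Set ℕ} (hS : TwoBounded a S) {c : ℕ → Fin 2}
    (hs : Stable S c) (x : ℕ) :
    ∃ i s, ∀ y, s ≤ y → c (2 ^ a * oddProduct x + 2 ^ a * oddProduct y) = i := by
  simp only [oddProduct_eq, ← mul_add]
  obtain ⟨m, hm, h⟩ := odds_of_stable hS hs (oddProd x) (oddProd_pos x)
  have hm1 : Odd m := hm
  exact ⟨c (2 ^ a * (oddProd x + m)), m, fun y hy => h _ _ (oddProd_pos y) hm1.pos
    (dvd_oddProd (Nat.odd_iff.1 hm1) hy) dvd_rfl⟩

theorem pair_mem (hI : Ideal I) (a : ℕ) {c : ℕ → Fin 2} (hc : code c ∈ I) :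
    code₂ (fun x y => c (2 ^ a * oddProduct x + 2 ^ a * oddProduct y)) ∈ I := by
  simp only [oddProduct_eq, ← mul_add]
  refine hI.down _ hc _ (leT_iff.2 ?_)
  have hf : Computable fun n : ℕ => 2 ^ a * (oddProd n.unpair.1 + oddProd n.unpair.2) :=
    (Primrec.nat_mul.comp (Primrec.const (2 ^ a))
      (Primrec.nat_add.comp (pr_oddProd.comp (Primrec.fst.comp Primrec.unpair))
      (pr_oddProd.comp (Primrec.snd.comp Primrec.unpair)))).to_comp
  exact ⟨REIn.mem (A := code c) hf, REIn.not_mem (A := code c) hf⟩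

theorem stableHT_of_srt (hI : Ideal I) {a : ℕ} {S : Set ℕ} (hS : TwoBounded a S)
    (h : SRT₂ I) : StableHT I S := by
  intro c hc hs
  obtain ⟨Y, hY, hYh⟩ := h _ (pair_mem hI a hc) (pair_stable hS hs)
  obtain ⟨X, hX1, hX2⟩ := odd hS hs hYh
  exact ⟨X, hI.down _ (hI.join_mem _ hc _ hY) _ hX1, hX2⟩

theorem stableHT_mono {S T : Set ℕ} (hST : S ⊆ T) (h : StableHT I T) : StableHT I S := by
  intro c hc hs
  refine h c hc fun n hn => ?_
  obtain ⟨m, hm, h1⟩ := hs n hn
  exact ⟨m, hST hm, h1⟩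

theorem srt_of_stableHT (hI : Ideal I) {b : ℕ} (hb : Odd b)
    (he : Even (orderOf (2 : ZMod b))) (h : StableHT I (Powers b)) : SRT₂ I := by
  intro g hg hgs
  obtain ⟨q, hq, hqb, heq⟩ := exists_prime (Nat.odd_iff.1 hb) he
  have hq2 : q % 2 = 1 := Nat.odd_iff.1 (hb.of_dvd_nat hqb)
  obtain ⟨d, hd, hdd⟩ := exists_dd hq hq2 heq
  have hq1 := hq.one_lt
  have hcI : code (colG q d g) ∈ I := by
    refine hI.down _ hg _ (leT_iff.2 ?_)
    have h1 : ∀ i, REIn (code₂ g) fun x : ℕ × ℕ => g x.1 x.2 = i :=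
      re_code₂ (REIn.mem Computable.id) (REIn.not_mem Computable.id)
    refine ⟨re_colG hq1 hd h1 1, (re_colG hq1 hd h1 0).of_eq fun x => ?_⟩
    exact fin2_zero _
  obtain ⟨X, hX, hXh⟩ := h _ hcI (stable_of_stab (stab_colG hq1 hqb hd hgs))
  obtain ⟨a1, a2⟩ := re_left (code₂ g) X
  obtain ⟨b1, b2⟩ := re_right (code₂ g) X
  have hz : REIn (join (code₂ g) X) fun x : ℕ => x = 0 :=
    REIn.of_re (RE.eq (by fun_prop) (by fun_prop))
  have hz' : REIn (join (code₂ g) X) fun x : ℕ => x ≠ 0 :=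
    REIn.of_re (RE.ne (by fun_prop) (by fun_prop))
  obtain ⟨Z, h1, ⟨h2, h3⟩, e, h4⟩ := extract (A := join (code₂ g) X) hq1 hq2 hd hdd hgs
    (sol_of_ht hXh) ((b1.and hz').of_eq fun x => by simp)
    ((b2.or hz).of_eq fun x => by
      simp only [Set.mem_sdiff, Set.mem_singleton_iff]; tauto) (re_code₂ a1 a2)
  exact ⟨Z, hI.down _ (hI.join_mem _ hg _ hX) _ (leT_iff.2 ⟨h2, h3⟩), h1, e, h4⟩

/-- Let `S` be a set of moduli such that the powers of two dividing its elements are bounded, or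
the odd parts of its elements are bounded. (1) In every Turing ideal with Ramsey's theorem for pairs
and two colours, every colouring with two colours that is stable for `S` has a solution for sums of
at most two terms. (2) If the odd parts are bounded, there is a solution computable from the
colouring. (3) If no element of `S` is divisible by `2 ^ a`, there is a solution computable from
the colouring together with any infinite set homogeneous for the colouring
`c (2 ^ a * P x + 2 ^ a * P y)` of pairs, where `P x` is the product of the odd numbers up to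
`2 * x + 1`. (4) If `b` is odd and the order of `2` modulo `b` is odd, every colouring that is stable
for the powers of `b` has a solution which is an arithmetic progression. (5) If the powers of
two dividing the elements of `S` are bounded, and `S` contains the powers of an odd number `b` such
that the order of `2` modulo `b` is even, then in every Turing ideal the statement for `S` is
equivalent to stable Ramsey's theorem for pairs and two colours. -/
theorem result :
    (∀ I, Ideal I → RT₂ I → ∀ S, (∃ a, TwoBounded a S) ∨ OddBounded S → StableHT I S) ∧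
    (∀ S, OddBounded S → ∀ c, Stable S c → ∃ X, LeT X (code c) ∧ HT c X) ∧
    (∀ a S, TwoBounded a S → ∀ c, Stable S c →
      ∀ Y, Hom (fun x y => c (2 ^ a * oddProduct x + 2 ^ a * oddProduct y)) Y →
      ∃ X, LeT X (join (code c) Y) ∧ HT c X) ∧
    (∀ b, Odd b → Odd (orderOf (2 : ZMod b)) → ∀ c, Stable (Powers b) c →
      ∃ a d, 0 < d ∧ HT c {x | ∃ k, x = a + d * k}) ∧
    (∀ I, Ideal I → ∀ S b, (∃ a, TwoBounded a S) → Odd b → Even (orderOf (2 : ZMod b)) →
      Powers b ⊆ S → (StableHT I S ↔ SRT₂ I)) := by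
  refine ⟨?_, fun S hS c => two hS, fun a S hS c hs Y hY => odd hS hs hY,
    fun b hb ho c hs => odd_ap hb ho hs, ?_⟩
  · rintro I hI hR S (⟨a, hS⟩ | hS)
    · exact stableHT_of_srt hI hS fun g hg _ => hR g hg
    · intro c hc hs
      obtain ⟨X, hX1, hX2⟩ := two hS hs
      exact ⟨X, hI.down _ hc _ hX1, hX2⟩
  · rintro I hI S b ⟨a, hS⟩ hb he hbS
    exact ⟨fun h => srt_of_stableHT hI hb he (stableHT_mono hbS h), stableHT_of_srt hI hS⟩

end Pool.Agent.Results.MP_bcf494_lc.StableInstances
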